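import Pool.Agent.H260.PA.Desc

/-! # Integral components of rational automorphisms modulo the primes (helper260) -/

set_option autoImplicit false

namespace Pool.Agent.H260.PA

open MvPolynomial Finset

variable {d : ℕ}

theorem single_ne (i : Fin d) : (Finsupp.single i 1 : Fin d →₀ ℕ) ≠ 0 := by
  intro h
  have := DFunLike.congr_fun h i
  simp at this

/-- a polynomial with no other monomials than `1` and `x_i` -/
theorem eq_of_support {R : Type} [CommRing R] (P : MvPolynomial (Fin d) R) (i : Fin d)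
    (h : ∀ m : Fin d →₀ ℕ, m ≠ 0 → m ≠ Finsupp.single i 1 → coeff m P = 0) :
    P = C (coeff (Finsupp.single i 1) P) * X i + C (coeff 0 P) := by
  ext m
  rw [coeff_add, coeff_C_mul, coeff_X, coeff_C]
  by_cases hm0 : m = 0
  · subst hm0
    rw [if_neg (single_ne i), if_pos rfl]
    simp
  · by_cases hm1 : m = Finsupp.single i 1
    · subst hm1
      rw [if_pos rfl, if_neg (Ne.symm hm0)]
      simp
    · rw [h m hm0 hm1, if_neg (Ne.symm hm1), if_neg (Ne.symm hm0)]
      simp

/-- shifts of the variables -/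
noncomputable def shiftE (p : ℕ) (s : ZMod p) :
    MvPolynomial (Fin d) (ZMod p) ≃ₐ[ZMod p] MvPolynomial (Fin d) (ZMod p) :=
  AlgEquiv.ofAlgHom (aeval fun i => X i - C s) (aeval fun i => X i + C s)
    (by
      apply MvPolynomial.algHom_ext
      intro i
      simp [← algebraMap_eq])
    (by
      apply MvPolynomial.algHom_ext
      intro i
      simp [← algebraMap_eq])

theorem prime_X_sub {p : ℕ} [Fact p.Prime] (i : Fin d) (s : ZMod p) :
    Prime (X i - C s : MvPolynomial (Fin d) (ZMod p)) := by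
  have h : (X i - C s : MvPolynomial (Fin d) (ZMod p)) = shiftE p s (X i) := by
    simp [shiftE]
  rw [h]
  exact (MulEquiv.prime_iff (shiftE p s : MvPolynomial (Fin d) (ZMod p) ≃ₐ[ZMod p] _)).2 X_prime

theorem coeff_zero_of_dvd {p : ℕ} [Fact p.Prime]
    (ε : MvPolynomial (Fin d) (ZMod p) ≃ₐ[ZMod p] MvPolynomial (Fin d) (ZMod p))
    (i l : Fin d) (r s : ZMod p) (h : (X i - C r) ∣ (ε (X l) - C s)) (m : Fin d →₀ ℕ) (hm0 : m ≠ 0)
    (hm1 : m ≠ Finsupp.single i 1) : coeff m (ε (X l)) = 0 := by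
  have h1 : ε (X l) - C s = ε (X l - C s) := by
    rw [map_sub]
    congr 1
    exact (ε.commutes s).symm
  have h2 : Prime (ε (X l) - C s) := by
    rw [h1]
    exact (MulEquiv.prime_iff ε).2 (prime_X_sub l s)
  obtain ⟨q, hq⟩ := h
  have h3 : IsUnit q := by
    rcases h2.irreducible.isUnit_or_isUnit hq with h4 | h4
    · exact absurd h4 (prime_X_sub i r).not_isUnit
    · exact h4
  obtain ⟨u, -, rfl⟩ := (isUnit_iff_eq_C_of_isReduced).1 h3
  have h5 : ε (X l) = C u * X i + C (s - r * u) := by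
    rw [sub_eq_iff_eq_add] at hq
    rw [hq, C_sub, C_mul]
    ring
  have h6 := congrArg (coeff m) h5
  rw [coeff_add, coeff_C_mul, coeff_X, coeff_C, if_neg (Ne.symm hm1),
    if_neg (Ne.symm hm0)] at h6
  simpa using h6

theorem aeval_map_cast {p : ℕ} (x : Fin d → ZMod p) (P : MvPolynomial (Fin d) ℤ) :
    aeval x (map (Int.castRingHom (ZMod p)) P) = aeval x P := by
  have := aeval_map_algebraMap (R := ℤ) (A := ZMod p) (B := ZMod p) x P
  exact this

/-- the values of one component are equidistributed -/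
theorem card_one (e : MvPolynomial (Fin d) ℚ ≃ₐ[ℚ] MvPolynomial (Fin d) ℚ) (i : Fin d)
    (g : MvPolynomial (Fin d) ℤ) (hg : e (X i) = map (algebraMap ℤ ℚ) g) :
    ∃ B : ℕ, ∀ p : ℕ, p.Prime → B < p → ∀ r : ZMod p,
      p * Nat.card {x : Fin d → ZMod p // aeval x g = r} = p ^ d := by
  obtain ⟨B, hB⟩ := descend e
  refine ⟨B, fun p hp hBp r => ?_⟩
  have hF : Fact p.Prime := ⟨hp⟩
  obtain ⟨e', he'⟩ := hB p hF hBp
  have h1 := comp_eq he' hg
  rw [← card_coord i r]
  congr 1
  refine Nat.card_congr (Equiv.subtypeEquiv (ptE (redE (rho p) e')) fun x => ?_)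
  rw [ptE_apply, redE_X, h1, map_rho, aeval_map_cast]

/-- two components of automorphisms take given values simultaneously about as often as expected -/
theorem card_two (e e₂ : MvPolynomial (Fin d) ℚ ≃ₐ[ℚ] MvPolynomial (Fin d) ℚ) (i l : Fin d)
    (g g₂ : MvPolynomial (Fin d) ℤ) (hg : e (X i) = map (algebraMap ℤ ℚ) g)
    (hg₂ : e₂ (X l) = map (algebraMap ℤ ℚ) g₂) :
    ∃ B D : ℕ, (¬ ∃ a b : ℚ, map (algebraMap ℤ ℚ) g₂ = C a * map (algebraMap ℤ ℚ) g + C b) →
      ∀ p : ℕ, p.Prime → B < p → ∀ r s : ZMod p,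
        p ^ 2 * Nat.card {x : Fin d → ZMod p // aeval x g = r ∧ aeval x g₂ = s} ≤ D * p ^ d := by
  by_cases hR : ∃ a b : ℚ, map (algebraMap ℤ ℚ) g₂ = C a * map (algebraMap ℤ ℚ) g + C b
  · exact ⟨0, 0, fun h => absurd hR h⟩
  have hm : ∃ m : Fin d →₀ ℕ, m ≠ 0 ∧ m ≠ Finsupp.single i 1 ∧ coeff m (e.symm (e₂ (X l))) ≠ 0 := by
    by_contra hcon
    push Not at hcon
    apply hR
    have h1 := eq_of_support (e.symm (e₂ (X l))) i (fun m h0 h1 => hcon m h0 h1)
    have h2 := congrArg e h1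
    rw [AlgEquiv.apply_symm_apply, map_add, map_mul] at h2
    have c1 : ∀ a : ℚ, e (C a) = C a := fun a => e.commutes a
    rw [c1, c1, hg₂, hg] at h2
    exact ⟨_, _, h2⟩
  obtain ⟨m, hm0, hm1, hm2⟩ := hm
  obtain ⟨B1, hB1⟩ := descend e
  obtain ⟨B2, hB2⟩ := descend e₂
  refine ⟨B1 + B2 + (coeff m (e.symm (e₂ (X l)))).num.natAbs, (e.symm (e₂ (X l))).totalDegree,
    fun _ p hp hBp r s => ?_⟩
  have hF : Fact p.Prime := ⟨hp⟩
  obtain ⟨e', he'⟩ := hB1 p hF (by omega)
  obtain ⟨e₂', he₂'⟩ := hB2 p hF (by omega)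
  have h1 := comp_eq he' hg
  have h2 := comp_eq he₂' hg₂
  -- the second component in the coordinates of the first
  have hQ : map (Sp p).subtype ((e₂'.trans e'.symm) (X l)) = e.symm (e₂ (X l)) := by
    rw [AlgEquiv.trans_apply, descend_symm he', he₂', map_X]
  have hQX : redE (rho p) (e₂'.trans e'.symm) (X l) =
      map (rho p) ((e₂'.trans e'.symm) (X l)) := redE_X _ _ _
  have hnd : ¬ (X i - C r) ∣ (redE (rho p) (e₂'.trans e'.symm) (X l) - C s) := by
    intro h
    have h3 := coeff_zero_of_dvd (redE (rho p) (e₂'.trans e'.symm)) i l r s h m hm0 hm1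
    rw [hQX, coeff_map] at h3
    have h4 : ((coeff m ((e₂'.trans e'.symm) (X l)) : Sp p) : ℚ) = coeff m (e.symm (e₂ (X l))) := by
      rw [← hQ, coeff_map]
      rfl
    exact rho_ne_zero p (coeff m ((e₂'.trans e'.symm) (X l))) (by rw [h4]; exact hm2)
      (by rw [h4]; omega) h3
  have h5 := card_pair i r s _ hnd
  have h6 : Nat.card {x : Fin d → ZMod p // aeval x g = r ∧ aeval x g₂ = s} =
      Nat.card {y : Fin d → ZMod p // y i = r ∧
        aeval y (redE (rho p) (e₂'.trans e'.symm) (X l)) = s} := by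
    refine Nat.card_congr (Equiv.subtypeEquiv (ptE (redE (rho p) e')) fun x => ?_)
    rw [aeval_ptE, hQX, redE_map, AlgEquiv.trans_apply, AlgEquiv.apply_symm_apply, ptE_apply, redE_X,
      h1, h2, map_rho, map_rho, aeval_map_cast, aeval_map_cast]
  rw [h6]
  refine h5.trans (Nat.mul_le_mul_right _ ?_)
  rw [hQX, ← hQ]
  refine (Finset.sup_mono (support_map_subset _ _)).trans ?_
  rw [totalDegree, support_map_of_injective _ (Subring.subtype_injective _)]

end Pool.Agent.H260.PA
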