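import Mathlib

/-! # Points of affine space over `ZMod p` and automorphisms of the polynomial ring (helper260) -/

set_option autoImplicit false

namespace Pool.Agent.H260.PA

open MvPolynomial Finset

section Red

variable {d : ℕ} {S T : Type} [CommRing S] [CommRing T]

theorem map_aev (ρ : S →+* T) (Φ : Fin d → MvPolynomial (Fin d) S) (P : MvPolynomial (Fin d) S) :
    map ρ (aeval Φ P) = (aeval (fun i => map ρ (Φ i)) :
      MvPolynomial (Fin d) T →ₐ[T] MvPolynomial (Fin d) T) (map ρ P) := by
  have h : (map ρ).comp ((aeval Φ : MvPolynomial (Fin d) S →ₐ[S] MvPolynomial (Fin d) S).toRingHom) =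
      ((aeval fun i => map ρ (Φ i) :
        MvPolynomial (Fin d) T →ₐ[T] MvPolynomial (Fin d) T).toRingHom.comp (map ρ)) := by
    apply MvPolynomial.ringHom_ext
    · intro r
      simp
    · intro i
      simp
  exact congrArg (fun g => g P) h

theorem map_hom (ρ : S →+* T) (e : MvPolynomial (Fin d) S →ₐ[S] MvPolynomial (Fin d) S)
    (P : MvPolynomial (Fin d) S) :
    (aeval (fun i => map ρ (e (X i))) :
      MvPolynomial (Fin d) T →ₐ[T] MvPolynomial (Fin d) T) (map ρ P) = map ρ (e P) := by
  have h1 := map_aev ρ (fun i => e (X i)) P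
  have h2 : (aeval (fun i => e (X i)) : MvPolynomial (Fin d) S →ₐ[S] MvPolynomial (Fin d) S) = e :=
    (MvPolynomial.aeval_unique e).symm
  rw [h2] at h1
  exact h1.symm

/-- The image of an automorphism of the polynomial ring under a homomorphism of the coefficients. -/
noncomputable def redE (ρ : S →+* T) (e : MvPolynomial (Fin d) S ≃ₐ[S] MvPolynomial (Fin d) S) :
    MvPolynomial (Fin d) T ≃ₐ[T] MvPolynomial (Fin d) T :=
  AlgEquiv.ofAlgHom (aeval fun i => map ρ (e (X i)))
    (aeval fun i => map ρ (e.symm (X i)))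
    (by
      apply MvPolynomial.algHom_ext
      intro i
      rw [AlgHom.comp_apply, aeval_X, AlgHom.id_apply]
      have := map_hom ρ (e : MvPolynomial (Fin d) S →ₐ[S] MvPolynomial (Fin d) S) (e.symm (X i))
      simpa using this)
    (by
      apply MvPolynomial.algHom_ext
      intro i
      rw [AlgHom.comp_apply, aeval_X, AlgHom.id_apply]
      have := map_hom ρ (e.symm : MvPolynomial (Fin d) S →ₐ[S] MvPolynomial (Fin d) S) (e (X i))
      simpa using this)

theorem redE_map (ρ : S →+* T) (e : MvPolynomial (Fin d) S ≃ₐ[S] MvPolynomial (Fin d) S)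
    (P : MvPolynomial (Fin d) S) : redE ρ e (map ρ P) = map ρ (e P) :=
  map_hom ρ (e : MvPolynomial (Fin d) S →ₐ[S] MvPolynomial (Fin d) S) P

theorem redE_X (ρ : S →+* T) (e : MvPolynomial (Fin d) S ≃ₐ[S] MvPolynomial (Fin d) S) (i : Fin d) :
    redE ρ e (X i) = map ρ (e (X i)) := by
  have := redE_map ρ e (X i)
  rwa [map_X] at this

end Red

section Pt

variable {d p : ℕ}

theorem aeval_pt (E : MvPolynomial (Fin d) (ZMod p) ≃ₐ[ZMod p] MvPolynomial (Fin d) (ZMod p))
    (x : Fin d → ZMod p) (P : MvPolynomial (Fin d) (ZMod p)) :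
    aeval (fun i => aeval x (E (X i))) P = aeval x (E P) := by
  have h : (aeval (fun i => aeval x (E (X i))) : MvPolynomial (Fin d) (ZMod p) →ₐ[ZMod p] ZMod p) =
      (aeval x : MvPolynomial (Fin d) (ZMod p) →ₐ[ZMod p] ZMod p).comp
        (E : MvPolynomial (Fin d) (ZMod p) →ₐ[ZMod p] MvPolynomial (Fin d) (ZMod p)) := by
    apply MvPolynomial.algHom_ext
    intro i
    simp
  rw [h]
  rfl

/-- The bijection of the points attached to an automorphism of the polynomial ring. -/
noncomputable def ptE (E : MvPolynomial (Fin d) (ZMod p) ≃ₐ[ZMod p] MvPolynomial (Fin d) (ZMod p)) :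
    (Fin d → ZMod p) ≃ (Fin d → ZMod p) where
  toFun x := fun i => aeval x (E (X i))
  invFun y := fun i => aeval y (E.symm (X i))
  left_inv := by
    intro x
    funext i
    show aeval (fun k => aeval x (E (X k))) (E.symm (X i)) = x i
    rw [aeval_pt, AlgEquiv.apply_symm_apply, aeval_X]
  right_inv := by
    intro y
    funext i
    show aeval (fun k => aeval y (E.symm (X k))) (E (X i)) = y i
    rw [aeval_pt, AlgEquiv.symm_apply_apply, aeval_X]

theorem aeval_ptE (E : MvPolynomial (Fin d) (ZMod p) ≃ₐ[ZMod p] MvPolynomial (Fin d) (ZMod p))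
    (x : Fin d → ZMod p) (P : MvPolynomial (Fin d) (ZMod p)) :
    aeval (ptE E x) P = aeval x (E P) := aeval_pt E x P

theorem ptE_apply (E : MvPolynomial (Fin d) (ZMod p) ≃ₐ[ZMod p] MvPolynomial (Fin d) (ZMod p))
    (x : Fin d → ZMod p) (i : Fin d) : ptE E x i = aeval x (E (X i)) := rfl

/-- the number of the points with one given coordinate -/
theorem card_coord [NeZero p] (i : Fin d) (r : ZMod p) :
    p * Nat.card {y : Fin d → ZMod p // y i = r} = p ^ d := by
  have e : (ZMod p × {y : Fin d → ZMod p // y i = r}) ≃ (Fin d → ZMod p) :=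
    { toFun := fun a => Function.update a.2.1 i a.1
      invFun := fun y => (y i, ⟨Function.update y i r, by simp⟩)
      left_inv := by
        rintro ⟨t, y, hy⟩
        simp only [Function.update_self, Function.update_idem, Prod.mk.injEq, Subtype.mk.injEq, true_and]
        rw [← hy, Function.update_eq_self]
      right_inv := by
        intro y
        simp }
  have h1 := Nat.card_congr e
  rw [Nat.card_prod] at h1
  have h2 : Nat.card (ZMod p) = p := by rw [Nat.card_eq_fintype_card, ZMod.card]
  have h3 : Nat.card (Fin d → ZMod p) = p ^ d := by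
    rw [Nat.card_eq_fintype_card, Fintype.card_fun, ZMod.card, Fintype.card_fin]
  rw [h2, h3] at h1
  exact h1

/-- substitution of one coordinate -/
noncomputable def sub1 (i : Fin d) (r : ZMod p) :
    MvPolynomial (Fin d) (ZMod p) →ₐ[ZMod p] MvPolynomial (Fin d) (ZMod p) :=
  aeval (Function.update X i (C r))

theorem aeval_sub1 (i : Fin d) (r : ZMod p) (y : Fin d → ZMod p) (P : MvPolynomial (Fin d) (ZMod p)) :
    aeval y (sub1 i r P) = aeval (Function.update y i r) P := by
  have h : (aeval y : MvPolynomial (Fin d) (ZMod p) →ₐ[ZMod p] ZMod p).comp (sub1 i r) =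
      aeval (Function.update y i r) := by
    apply MvPolynomial.algHom_ext
    intro k
    rw [AlgHom.comp_apply, sub1, aeval_X, aeval_X]
    by_cases hk : k = i
    · subst hk; simp
    · simp [Function.update_of_ne hk]
  exact congrArg (fun g => g P) h

theorem dvd_of_sub1 (i : Fin d) (r : ZMod p) (P : MvPolynomial (Fin d) (ZMod p))
    (h : sub1 i r P = 0) : (X i - C r) ∣ P := by
  rw [← Ideal.mem_span_singleton]
  have h1 : (Ideal.Quotient.mkₐ (ZMod p) (Ideal.span {(X i - C r : MvPolynomial (Fin d) (ZMod p))})).comp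
      (sub1 i r) = Ideal.Quotient.mkₐ (ZMod p) (Ideal.span {(X i - C r : MvPolynomial (Fin d) (ZMod p))}) := by
    apply MvPolynomial.algHom_ext
    intro k
    rw [AlgHom.comp_apply, sub1, aeval_X]
    by_cases hk : k = i
    · subst hk
      rw [Function.update_self, Ideal.Quotient.mkₐ_eq_mk, Ideal.Quotient.eq, Ideal.mem_span_singleton]
      exact ⟨-1, by ring⟩
    · rw [Function.update_of_ne hk]
  have h2 := congrArg (fun g => g P) h1
  simp only [AlgHom.comp_apply, h, map_zero] at h2
  rw [Ideal.Quotient.mkₐ_eq_mk] at h2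
  exact Ideal.Quotient.eq_zero_iff_mem.1 h2.symm

theorem totalDegree_sub1 (i : Fin d) (r : ZMod p) (P : MvPolynomial (Fin d) (ZMod p)) :
    (sub1 i r P).totalDegree ≤ P.totalDegree := by
  conv_lhs => rw [P.as_sum]
  rw [map_sum]
  refine (totalDegree_finsetSum _ _).trans (Finset.sup_le ?_)
  intro m hm
  rw [sub1, aeval_monomial]
  refine (totalDegree_mul _ _).trans ?_
  have h1 : (algebraMap (ZMod p) (MvPolynomial (Fin d) (ZMod p)) (coeff m P)).totalDegree = 0 := by
    rw [algebraMap_eq, totalDegree_C]
  rw [h1, zero_add]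
  refine le_trans ?_ (le_totalDegree hm)
  rw [Finsupp.prod, Finsupp.sum]
  refine (totalDegree_finsetProd _ _).trans (Finset.sum_le_sum ?_)
  intro k _
  refine (totalDegree_pow _ _).trans ?_
  by_cases hk : k = i
  · subst hk
    simp
  · rw [Function.update_of_ne hk]
    by_cases hp : Nontrivial (ZMod p)
    · rw [totalDegree_X, mul_one]
    · rw [not_nontrivial_iff_subsingleton] at hp
      have : (X k : MvPolynomial (Fin d) (ZMod p)) = 0 := Subsingleton.elim _ _
      rw [this]; simp

theorem zeros_le [Fact p.Prime] (H : MvPolynomial (Fin d) (ZMod p)) (hH : H ≠ 0) :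
    p * Nat.card {y : Fin d → ZMod p // aeval y H = 0} ≤ H.totalDegree * p ^ d := by
  classical
  have hp0 : (0 : ℚ≥0) < p := by exact_mod_cast (Fact.out : p.Prime).pos
  have h := schwartz_zippel_totalDegree hH (Finset.univ : Finset (ZMod p))
  rw [Finset.card_univ, ZMod.card, div_le_div_iff₀ (by positivity) hp0] at h
  have h2 : Nat.card {y : Fin d → ZMod p // aeval y H = 0} =
      #{f ∈ Fintype.piFinset fun _ : Fin d => (Finset.univ : Finset (ZMod p)) | eval f H = 0} := by
    rw [Nat.card_eq_fintype_card, Fintype.card_subtype]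
    congr 1
  rw [h2]
  have h3 : (p : ℚ≥0) * (#{f ∈ Fintype.piFinset fun _ : Fin d => (Finset.univ : Finset (ZMod p)) |
      eval f H = 0} : ℚ≥0) ≤ H.totalDegree * (p : ℚ≥0) ^ d := by
    rw [mul_comm]; exact h
  exact_mod_cast h3

/-- the points of a hyperplane on which a polynomial takes a given value -/
theorem card_pair [Fact p.Prime] (i : Fin d) (r s : ZMod p) (Q : MvPolynomial (Fin d) (ZMod p))
    (h : ¬ (X i - C r) ∣ (Q - C s)) :
    p ^ 2 * Nat.card {y : Fin d → ZMod p // y i = r ∧ aeval y Q = s} ≤ Q.totalDegree * p ^ d := by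
  have hH : sub1 i r (Q - C s) ≠ 0 := fun h0 => h (dvd_of_sub1 i r _ h0)
  have h1 := zeros_le (sub1 i r (Q - C s)) hH
  have h2 : (sub1 i r (Q - C s)).totalDegree ≤ Q.totalDegree := by
    refine (totalDegree_sub1 i r _).trans ((totalDegree_sub_C_le Q s))
  have h3 : p * Nat.card {y : Fin d → ZMod p // y i = r ∧ aeval y Q = s} ≤
      Nat.card {y : Fin d → ZMod p // aeval y (sub1 i r (Q - C s)) = 0} := by
    have h4 : Nat.card (ZMod p × {y : Fin d → ZMod p // y i = r ∧ aeval y Q = s}) ≤
        Nat.card {y : Fin d → ZMod p // aeval y (sub1 i r (Q - C s)) = 0} := by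
      refine Nat.card_le_card_of_injective (fun a => ⟨Function.update a.2.1 i a.1, ?_⟩) ?_
      · obtain ⟨t, y, hy, hy2⟩ := a
        show aeval (Function.update y i t) (sub1 i r (Q - C s)) = 0
        rw [aeval_sub1, Function.update_idem]
        have : Function.update y i r = y := by rw [← hy, Function.update_eq_self]
        rw [this, map_sub, hy2]
        simp
      · rintro ⟨t, y, hy, hy2⟩ ⟨t', y', hy', hy2'⟩ hEq
        have hE : Function.update y i t = Function.update y' i t' := congrArg Subtype.val hEq
        have ht : t = t' := by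
          have := congrFun hE i
          simpa using this
        have hyy : y = y' := by
          have e1 : Function.update y i r = y := by rw [← hy, Function.update_eq_self]
          have e2 : Function.update y' i r = y' := by rw [← hy', Function.update_eq_self]
          have e3 : Function.update (Function.update y i t) i r = Function.update y i r :=
            Function.update_idem _ _ _
          have e4 : Function.update (Function.update y' i t') i r = Function.update y' i r :=
            Function.update_idem _ _ _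
          rw [← e1, ← e2, ← e3, ← e4, hE]
        subst ht
        subst hyy
        rfl
    rw [Nat.card_prod, Nat.card_eq_fintype_card, ZMod.card] at h4
    exact h4
  calc p ^ 2 * Nat.card {y : Fin d → ZMod p // y i = r ∧ aeval y Q = s}
      = p * (p * Nat.card {y : Fin d → ZMod p // y i = r ∧ aeval y Q = s}) := by ring
    _ ≤ p * Nat.card {y : Fin d → ZMod p // aeval y (sub1 i r (Q - C s)) = 0} :=
        Nat.mul_le_mul_left _ h3
    _ ≤ (sub1 i r (Q - C s)).totalDegree * p ^ d := h1
    _ ≤ Q.totalDegree * p ^ d := Nat.mul_le_mul_right _ h2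

end Pt

end Pool.Agent.H260.PA
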