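import Pool.Agent.H260.PA.Count

/-! # Reduction of rational polynomials modulo large primes (helper260) -/

set_option autoImplicit false

namespace Pool.Agent.H260.PA

open MvPolynomial Finset

variable {d : ℕ}

theorem den_ne {p : ℕ} {q : ℚ} (h : ¬ p ∣ q.den) : ((q.den : ℕ) : ZMod p) ≠ 0 := by
  intro h0
  exact h ((ZMod.natCast_eq_zero_iff q.den p).1 h0)

/-- The rational numbers whose denominator is prime to `p`. -/
def Sp (p : ℕ) [hp : Fact p.Prime] : Subring ℚ where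
  carrier := {q | ¬ p ∣ q.den}
  mul_mem' := by
    intro a b ha hb h
    rcases (Nat.Prime.dvd_mul hp.out).1 (h.trans (Rat.mul_den_dvd a b)) with h1 | h1
    · exact ha h1
    · exact hb h1
  one_mem' := by
    intro h
    rw [Rat.den_one] at h
    exact hp.out.one_lt.ne' (Nat.dvd_one.1 h)
  add_mem' := by
    intro a b ha hb h
    rcases (Nat.Prime.dvd_mul hp.out).1 (h.trans (Rat.add_den_dvd a b)) with h1 | h1
    · exact ha h1
    · exact hb h1
  zero_mem' := by
    intro h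
    rw [Rat.den_zero] at h
    exact hp.out.one_lt.ne' (Nat.dvd_one.1 h)
  neg_mem' := by
    intro a ha h
    rw [Rat.neg_den] at h
    exact ha h

/-- The reduction modulo `p`. -/
noncomputable def rho (p : ℕ) [hp : Fact p.Prime] : Sp p →+* ZMod p where
  toFun q := ((q : ℚ) : ZMod p)
  map_one' := by
    show (((1 : Sp p) : ℚ) : ZMod p) = 1
    simp
  map_mul' a b := by
    show (((a * b : Sp p) : ℚ) : ZMod p) = _
    rw [Subring.coe_mul]
    exact Rat.cast_mul_of_ne_zero (den_ne a.2) (den_ne b.2)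
  map_zero' := by
    show (((0 : Sp p) : ℚ) : ZMod p) = 0
    simp
  map_add' a b := by
    show (((a + b : Sp p) : ℚ) : ZMod p) = _
    rw [Subring.coe_add]
    exact Rat.cast_add_of_ne_zero (den_ne a.2) (den_ne b.2)

theorem rho_ne_zero (p : ℕ) [hp : Fact p.Prime] (q : Sp p) (hq : (q : ℚ) ≠ 0)
    (hlt : (q : ℚ).num.natAbs < p) : rho p q ≠ 0 := by
  show ((q : ℚ) : ZMod p) ≠ 0
  rw [Rat.cast_def]
  refine div_ne_zero ?_ (den_ne q.2)
  intro h0
  have h1 := (ZMod.intCast_zmod_eq_zero_iff_dvd _ p).1 h0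
  have h2 := Int.natAbs_dvd_natAbs.2 h1
  rw [Int.natAbs_natCast] at h2
  have h3 := Nat.le_of_dvd (Int.natAbs_pos.2 (Rat.num_ne_zero.2 hq)) h2
  omega

theorem lift_poly (p : ℕ) [hp : Fact p.Prime] (P : MvPolynomial (Fin d) ℚ)
    (h : ∀ m, ¬ p ∣ (coeff m P).den) :
    ∃ P' : MvPolynomial (Fin d) (Sp p), map (Sp p).subtype P' = P := by
  refine ⟨∑ m ∈ P.support, monomial m (⟨coeff m P, h m⟩ : Sp p), ?_⟩
  rw [map_sum]
  conv_rhs => rw [P.as_sum]
  refine Finset.sum_congr rfl fun m _ => ?_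
  rw [map_monomial]
  rfl

theorem den_bound (P : MvPolynomial (Fin d) ℚ) :
    ∃ B : ℕ, ∀ p : ℕ, p.Prime → B < p → ∀ m, ¬ p ∣ (coeff m P).den := by
  classical
  refine ⟨∑ m ∈ P.support, (coeff m P).den, fun p hp hB m h => ?_⟩
  by_cases hm : m ∈ P.support
  · have h1 : (coeff m P).den ≤ ∑ m ∈ P.support, (coeff m P).den :=
      Finset.single_le_sum (f := fun m => (coeff m P).den) (fun _ _ => Nat.zero_le _) hm
    have h2 := Nat.le_of_dvd (coeff m P).den_pos h
    omega
  · rw [notMem_support_iff.1 hm, Rat.den_zero] at h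
    exact hp.one_lt.ne' (Nat.dvd_one.1 h)

theorem sub_inj (p : ℕ) [hp : Fact p.Prime] :
    Function.Injective (map (σ := Fin d) (Sp p).subtype) :=
  map_injective _ (Subring.subtype_injective _)

/-- An automorphism over `ℚ` comes from an automorphism over `Sp p` for all large `p`. -/
theorem descend (e : MvPolynomial (Fin d) ℚ ≃ₐ[ℚ] MvPolynomial (Fin d) ℚ) :
    ∃ B : ℕ, ∀ p : ℕ, ∀ hp : Fact p.Prime, B < p →
      ∃ e' : MvPolynomial (Fin d) (Sp p) ≃ₐ[Sp p] MvPolynomial (Fin d) (Sp p),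
        ∀ P, map (Sp p).subtype (e' P) = e (map (Sp p).subtype P) := by
  choose B1 hB1 using fun i : Fin d => den_bound (e (X i))
  choose B2 hB2 using fun i : Fin d => den_bound (e.symm (X i))
  refine ⟨∑ i, (B1 i + B2 i), fun p hp hB => ?_⟩
  have hle : ∀ i, B1 i + B2 i < p := fun i =>
    lt_of_le_of_lt (Finset.single_le_sum (f := fun i => B1 i + B2 i) (fun _ _ => Nat.zero_le _)
      (Finset.mem_univ i)) hB
  choose Φ hΦ using fun i : Fin d => lift_poly p (e (X i))
    (hB1 i p hp.out (by have := hle i; omega))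
  choose Ψ hΨ using fun i : Fin d => lift_poly p (e.symm (X i))
    (hB2 i p hp.out (by have := hle i; omega))
  have key1 : ∀ P : MvPolynomial (Fin d) (Sp p),
      map (Sp p).subtype (aeval Φ P) = e (map (Sp p).subtype P) := by
    intro P
    rw [map_aev]
    have h1 : (fun i => map (Sp p).subtype (Φ i)) = fun i => e (X i) := funext hΦ
    rw [h1]
    have h2 : (aeval (fun i => e (X i)) : MvPolynomial (Fin d) ℚ →ₐ[ℚ] MvPolynomial (Fin d) ℚ) =
      (e : MvPolynomial (Fin d) ℚ →ₐ[ℚ] MvPolynomial (Fin d) ℚ) :=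
      (MvPolynomial.aeval_unique (e : MvPolynomial (Fin d) ℚ →ₐ[ℚ] MvPolynomial (Fin d) ℚ)).symm
    rw [h2]
    rfl
  have key2 : ∀ P : MvPolynomial (Fin d) (Sp p),
      map (Sp p).subtype (aeval Ψ P) = e.symm (map (Sp p).subtype P) := by
    intro P
    rw [map_aev]
    have h1 : (fun i => map (Sp p).subtype (Ψ i)) = fun i => e.symm (X i) := funext hΨ
    rw [h1]
    have h2 : (aeval (fun i => e.symm (X i)) : MvPolynomial (Fin d) ℚ →ₐ[ℚ] MvPolynomial (Fin d) ℚ) =
      (e.symm : MvPolynomial (Fin d) ℚ →ₐ[ℚ] MvPolynomial (Fin d) ℚ) :=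
      (MvPolynomial.aeval_unique (e.symm : MvPolynomial (Fin d) ℚ →ₐ[ℚ] MvPolynomial (Fin d) ℚ)).symm
    rw [h2]
    rfl
  refine ⟨AlgEquiv.ofAlgHom (aeval Φ) (aeval Ψ) ?_ ?_, fun P => key1 P⟩
  · apply MvPolynomial.algHom_ext
    intro i
    rw [AlgHom.comp_apply, aeval_X, AlgHom.id_apply]
    apply sub_inj p
    rw [key1, hΨ, AlgEquiv.apply_symm_apply, map_X]
  · apply MvPolynomial.algHom_ext
    intro i
    rw [AlgHom.comp_apply, aeval_X, AlgHom.id_apply]
    apply sub_inj p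
    rw [key2, hΦ, AlgEquiv.symm_apply_apply, map_X]

theorem descend_symm {p : ℕ} [hp : Fact p.Prime] {e : MvPolynomial (Fin d) ℚ ≃ₐ[ℚ] MvPolynomial (Fin d) ℚ}
    {e' : MvPolynomial (Fin d) (Sp p) ≃ₐ[Sp p] MvPolynomial (Fin d) (Sp p)}
    (h : ∀ P, map (Sp p).subtype (e' P) = e (map (Sp p).subtype P)) (Q : MvPolynomial (Fin d) (Sp p)) :
    map (Sp p).subtype (e'.symm Q) = e.symm (map (Sp p).subtype Q) := by
  have h1 := h (e'.symm Q)
  rw [AlgEquiv.apply_symm_apply] at h1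
  rw [h1, AlgEquiv.symm_apply_apply]

/-- An integral component of a rational automorphism. -/
theorem comp_eq {p : ℕ} [hp : Fact p.Prime] {e : MvPolynomial (Fin d) ℚ ≃ₐ[ℚ] MvPolynomial (Fin d) ℚ}
    {e' : MvPolynomial (Fin d) (Sp p) ≃ₐ[Sp p] MvPolynomial (Fin d) (Sp p)}
    (h : ∀ P, map (Sp p).subtype (e' P) = e (map (Sp p).subtype P)) {i : Fin d}
    {g : MvPolynomial (Fin d) ℤ} (hg : e (X i) = map (algebraMap ℤ ℚ) g) :
    e' (X i) = map (Int.castRingHom (Sp p)) g := by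
  apply sub_inj p
  rw [h, map_X, hg, MvPolynomial.map_map]
  congr 1

theorem map_rho {p : ℕ} [hp : Fact p.Prime] (g : MvPolynomial (Fin d) ℤ) :
    map (rho p) (map (Int.castRingHom (Sp p)) g) = map (Int.castRingHom (ZMod p)) g := by
  rw [MvPolynomial.map_map]
  have h : (rho p).comp (Int.castRingHom (Sp p)) = Int.castRingHom (ZMod p) :=
    RingHom.ext_int _ _
  rw [h]

end Pool.Agent.H260.PA
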