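import Pool.Agent.H260.PA.Alg
import Pool.Agent.Y837.SV.Crit3

/-! # Record neighbourhoods of the components of polynomial automorphisms (helper260) -/

set_option autoImplicit false

namespace Pool.Agent.H260.PA

open MvPolynomial Finset
open Pool.Agent.H256R2.SC (ff)

variable {d : ℕ}

/-- `g' = ± g + b` -/
def Rel (g g' : MvPolynomial (Fin d) ℤ) : Prop := ∃ (a : ℤˣ) (b : ℤ), g' = C (a : ℤ) * g + C b

theorem Rel.refl (g : MvPolynomial (Fin d) ℤ) : Rel g g := ⟨1, 0, by simp⟩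

theorem Rel.symm {g g' : MvPolynomial (Fin d) ℤ} (h : Rel g g') : Rel g' g := by
  obtain ⟨a, b, rfl⟩ := h
  refine ⟨a⁻¹, -((a⁻¹ : ℤˣ) : ℤ) * b, ?_⟩
  have h1 : (C ((a⁻¹ : ℤˣ) : ℤ) : MvPolynomial (Fin d) ℤ) * C (a : ℤ) = 1 := by
    rw [← C_mul, Units.inv_mul, C_1]
  rw [mul_add, ← mul_assoc, h1, C_mul, C_neg]
  ring

theorem Rel.trans {g g' g'' : MvPolynomial (Fin d) ℤ} (h : Rel g g') (h' : Rel g' g'') :
    Rel g g'' := by
  obtain ⟨a, b, rfl⟩ := h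
  obtain ⟨a', b', rfl⟩ := h'
  refine ⟨a' * a, a' * b + b', ?_⟩
  rw [Units.val_mul, C_mul, C_add, C_mul]
  ring

theorem map_inj_q : Function.Injective (map (σ := Fin d) (algebraMap ℤ ℚ)) :=
  map_injective _ (algebraMap ℤ ℚ).injective_int

theorem rel_of_affine {g g₂ : MvPolynomial (Fin d) ℤ}
    (hne : ∀ a b c : ℤ, a ≠ 0 → C a * g₂ = C b * g + C c → |b| = |a|)
    (h : ∃ a b : ℚ, map (algebraMap ℤ ℚ) g₂ = C a * map (algebraMap ℤ ℚ) g + C b) : Rel g g₂ := by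
  obtain ⟨a, b, hab⟩ := h
  have ha0 : (a.den : ℤ) ≠ 0 := by exact_mod_cast a.den_nz
  have hb0 : (b.den : ℤ) ≠ 0 := by exact_mod_cast b.den_nz
  have haq : (a.den : ℚ) * a = a.num := Rat.den_mul_eq_num a
  have hbq : (b.den : ℚ) * b = b.num := Rat.den_mul_eq_num b
  have h1 : C ((a.den : ℤ) * b.den) * g₂ = C (a.num * b.den) * g + C (b.num * a.den) := by
    apply map_inj_q
    simp only [map_mul, map_add, map_C, hab]
    have e1 : (C ((algebraMap ℤ ℚ) ((a.den : ℕ) : ℤ)) : MvPolynomial (Fin d) ℚ) *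
        C ((algebraMap ℤ ℚ) ((b.den : ℕ) : ℤ)) * C a =
        C ((algebraMap ℤ ℚ) a.num) * C ((algebraMap ℤ ℚ) ((b.den : ℕ) : ℤ)) := by
      rw [← C_mul, ← C_mul, ← C_mul]
      congr 1
      simp only [algebraMap_int_eq, eq_intCast, Int.cast_natCast]
      rw [← haq]; ring
    have e2 : (C ((algebraMap ℤ ℚ) ((a.den : ℕ) : ℤ)) : MvPolynomial (Fin d) ℚ) *
        C ((algebraMap ℤ ℚ) ((b.den : ℕ) : ℤ)) * C b =
        C ((algebraMap ℤ ℚ) b.num) * C ((algebraMap ℤ ℚ) ((a.den : ℕ) : ℤ)) := by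
      rw [← C_mul, ← C_mul, ← C_mul]
      congr 1
      simp only [algebraMap_int_eq, eq_intCast, Int.cast_natCast]
      rw [← hbq]; ring
    rw [mul_add, ← mul_assoc, e1, e2]
  obtain ⟨D, hD⟩ : ∃ D : ℤ, D = (a.den : ℤ) * b.den := ⟨_, rfl⟩
  obtain ⟨k, hk⟩ : ∃ k : ℤ, k = b.num * a.den := ⟨_, rfl⟩
  rw [← hD, ← hk] at h1
  have hD0 : D ≠ 0 := by rw [hD]; exact mul_ne_zero ha0 hb0
  have h2 := hne _ _ _ hD0 h1
  have hu : ∃ u : ℤˣ, a.num * b.den = (u : ℤ) * D := by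
    rcases abs_eq_abs.1 h2 with h3 | h3
    · exact ⟨1, by rw [h3]; simp⟩
    · exact ⟨-1, by rw [h3]; simp⟩
  obtain ⟨u, hu⟩ := hu
  rw [hu] at h1
  have h4 := congrArg (coeff 0) h1
  rw [coeff_add, coeff_C_mul, coeff_C_mul, coeff_C, if_pos rfl] at h4
  refine ⟨u, coeff 0 g₂ - u * coeff 0 g, ?_⟩
  have h5 : k = D * (coeff 0 g₂ - u * coeff 0 g) := by linarith
  rw [h5, C_mul (a := D), C_mul (a := (u : ℤ))] at h1
  have h6 : (C D : MvPolynomial (Fin d) ℤ) * g₂ =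
      C D * (C (u : ℤ) * g + C (coeff 0 g₂ - u * coeff 0 g)) := by
    rw [h1]; ring
  exact mul_left_cancel₀ (C_ne_zero.2 hD0) h6

theorem ff_large (K : ℝ) : ∃ X₁ : ℝ, ∀ X : ℝ, X₁ ≤ X → K ≤ ff X := by
  refine ⟨max (Real.exp (Real.exp (Real.exp (Real.exp 1)))) (Real.exp K), fun x hx' => ?_⟩
  obtain ⟨hx, hxK⟩ := max_le_iff.1 hx'
  have hx0 : 0 < x := lt_of_lt_of_le (Real.exp_pos _) hx
  have a1 : Real.exp (Real.exp (Real.exp 1)) ≤ Real.log x := by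
    rw [← Real.log_exp (Real.exp (Real.exp (Real.exp 1)))]
    exact Real.log_le_log (Real.exp_pos _) hx
  have a1p : 0 < Real.log x := lt_of_lt_of_le (Real.exp_pos _) a1
  have a2 : Real.exp (Real.exp 1) ≤ Real.log (Real.log x) := by
    rw [← Real.log_exp (Real.exp (Real.exp 1))]
    exact Real.log_le_log (Real.exp_pos _) a1
  have a2p : 0 < Real.log (Real.log x) := lt_of_lt_of_le (Real.exp_pos _) a2
  have a3 : Real.exp 1 ≤ Real.log (Real.log (Real.log x)) := by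
    rw [← Real.log_exp (Real.exp 1)]
    exact Real.log_le_log (Real.exp_pos _) a2
  have a3p : 0 < Real.log (Real.log (Real.log x)) := lt_of_lt_of_le (Real.exp_pos _) a3
  have a4 : 1 ≤ Real.log (Real.log (Real.log (Real.log x))) := by
    rw [← Real.log_exp 1]
    exact Real.log_le_log (Real.exp_pos _) a3
  have a5 : Real.log (Real.log (Real.log x)) ≤ Real.log (Real.log x) := by
    have := Real.log_le_sub_one_of_pos a2p
    linarith
  have a6 : K ≤ Real.log x := by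
    rw [← Real.log_exp K]
    exact Real.log_le_log (Real.exp_pos _) hxK
  unfold ff
  rw [le_div_iff₀ (by positivity)]
  have a7 : (Real.log (Real.log (Real.log x))) ^ 2 ≤ (Real.log (Real.log x)) ^ 2 :=
    pow_le_pow_left₀ a3p.le a5 2
  calc K * (Real.log (Real.log (Real.log x))) ^ 2 ≤ Real.log x * (Real.log (Real.log (Real.log x))) ^ 2 :=
        mul_le_mul_of_nonneg_right a6 (by positivity)
    _ ≤ Real.log x * (Real.log (Real.log x)) ^ 2 := mul_le_mul_of_nonneg_left a7 a1p.le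
    _ = Real.log x * (Real.log (Real.log x)) ^ 2 * 1 := (mul_one _).symm
    _ ≤ Real.log x * (Real.log (Real.log x)) ^ 2 * Real.log (Real.log (Real.log (Real.log x))) :=
        mul_le_mul_of_nonneg_left a4 (by positivity)

theorem not_const {e : MvPolynomial (Fin d) ℚ ≃ₐ[ℚ] MvPolynomial (Fin d) ℚ} {i : Fin d}
    {g : MvPolynomial (Fin d) ℤ} (hg : e (X i) = map (algebraMap ℤ ℚ) g) (c : ℤ) : g ≠ C c := by
  rintro rfl
  rw [map_C] at hg
  have h1 := congrArg e.symm hg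
  rw [AlgEquiv.symm_apply_apply] at h1
  have c1 : ∀ a : ℚ, e.symm (C a) = C a := fun a => e.symm.commutes a
  rw [c1] at h1
  have h2 := congrArg (coeff (Finsupp.single i 1)) h1
  rw [coeff_X, coeff_C, if_pos rfl, if_neg (Ne.symm (single_ne i))] at h2
  exact one_ne_zero h2

theorem main {m : ℕ} (g : Fin m → MvPolynomial (Fin d) ℤ)
    (hg : ∀ j, ∃ (e : MvPolynomial (Fin d) ℚ ≃ₐ[ℚ] MvPolynomial (Fin d) ℚ) (i : Fin d),
      e (X i) = map (algebraMap ℤ ℚ) (g j))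
    (hne : ∀ i j, ∀ a b c : ℤ, a ≠ 0 → C a * g i = C b * g j + C c → |b| = |a|) :
    ∃ c : ℝ, 0 < c ∧ ∃ Z₀ : ℝ, ∀ Z : ℕ, Z₀ ≤ Z → ∀ M : Fin d → ℤ, ∃ x : Fin d → ℤ,
      (∀ i, M i < x i ∧ x i ≤ M i + Z) ∧ ∀ j, ∀ n : ℤ, |(n : ℝ) - eval x (g j)| ≤ c * ff Z →
        ∃ p : ℕ, p.Prime ∧ (p : ℝ) ≤ (Z : ℝ) ^ (1 / 10 : ℝ) ∧ (p : ℤ) ∣ n := by
  classical
  choose e i hei using hg
  let s : Setoid (Fin m) := ⟨fun j k => Rel (g j) (g k),
    ⟨fun j => Rel.refl _, fun h => h.symm, fun h h' => h.trans h'⟩⟩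
  let _ : Fintype (Quotient s) := Fintype.ofFinite _
  obtain ⟨o, ho⟩ : ∃ o : Quotient s → Fin m, o = Quotient.out := ⟨_, rfl⟩
  have ho1 : ∀ q q' : Quotient s, q ≠ q' →
      ¬ ∃ a b : ℚ, map (algebraMap ℤ ℚ) (g (o q')) = C a * map (algebraMap ℤ ℚ) (g (o q)) + C b := by
    intro q q' hqq h
    apply hqq
    have h1 : Rel (g (o q)) (g (o q')) := rel_of_affine (fun a b c => hne _ _ a b c) h
    have h2 : (⟦o q⟧ : Quotient s) = ⟦o q'⟧ := Quotient.sound h1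
    rwa [ho, Quotient.out_eq, Quotient.out_eq] at h2
  have ho2 : ∀ j : Fin m, Rel (g (o ⟦j⟧)) (g j) := by
    intro j
    have h1 : (⟦o ⟦j⟧⟧ : Quotient s) = ⟦j⟧ := by rw [ho, Quotient.out_eq]
    exact Quotient.exact h1
  choose u b hub using ho2
  choose B1 hB1 using fun q : Quotient s => card_one (e (o q)) (i (o q)) (g (o q)) (hei (o q))
  choose B2 D hBD using fun q q' : Quotient s =>
    card_two (e (o q)) (e (o q')) (i (o q)) (i (o q')) (g (o q)) (g (o q')) (hei _) (hei _)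
  obtain ⟨B₀, hB₀⟩ : ∃ B₀ : ℕ, B₀ = ∑ q, B1 q + ∑ q, ∑ q', B2 q q' := ⟨_, rfl⟩
  obtain ⟨C₀, hC₀⟩ : ∃ C₀ : ℕ, C₀ = ∑ q, ∑ q', D q q' := ⟨_, rfl⟩
  have b1 : ∀ q, B1 q ≤ B₀ := fun q =>
    (Finset.single_le_sum (f := B1) (fun _ _ => Nat.zero_le _) (mem_univ q)).trans (by omega)
  have b2 : ∀ q q', B2 q q' ≤ B₀ := fun q q' =>
    ((Finset.single_le_sum (f := fun q' => B2 q q') (fun _ _ => Nat.zero_le _) (mem_univ q')).trans
      (Finset.single_le_sum (f := fun q => ∑ q', B2 q q') (fun _ _ => Nat.zero_le _)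
        (mem_univ q))).trans (by omega)
  have b3 : ∀ q q', D q q' ≤ C₀ := fun q q' =>
    ((Finset.single_le_sum (f := fun q' => D q q') (fun _ _ => Nat.zero_le _) (mem_univ q')).trans
      (Finset.single_le_sum (f := fun q => ∑ q', D q q') (fun _ _ => Nat.zero_le _)
        (mem_univ q))).trans (by omega)
  obtain ⟨c, hc, Z₀, h⟩ := Pool.Agent.Y837.SV.crit3 d (fun q : Quotient s => g (o q))
    (fun q c => not_const (hei (o q)) c) (fun _ => ∅) (by intro j r hr; simp at hr) B₀ (C₀ : ℝ) 1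
    one_pos
    (by
      intro p hp hBp q r _
      have h1 := hB1 q p hp (lt_of_le_of_lt (b1 q) hBp) r
      have h2 : (p : ℝ) * (Nat.card {x : Fin d → ZMod p // aeval x (g (o q)) = r} : ℝ) = (p : ℝ) ^ d := by
        exact_mod_cast h1
      rw [h2, sub_self, abs_zero]
      positivity)
    (by
      intro p hp hBp q q' hqq r t _ _
      have h1 := hBD q q' (ho1 q q' hqq) p hp (lt_of_le_of_lt (b2 q q') hBp) r t
      have h2 := h1.trans (Nat.mul_le_mul_right (p ^ d) (b3 q q'))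
      exact_mod_cast h2)
  obtain ⟨V, hV⟩ : ∃ V : ℝ, V = ∑ j, |(b j : ℝ)| := ⟨_, rfl⟩
  have hVb : ∀ j, |(b j : ℝ)| ≤ V := by
    intro j
    rw [hV]
    exact Finset.single_le_sum (f := fun j => |(b j : ℝ)|) (fun _ _ => abs_nonneg _) (mem_univ j)
  obtain ⟨X₂, hX₂⟩ := ff_large (2 * V / c)
  refine ⟨c / 2, by positivity, max Z₀ X₂, fun Z hZ M => ?_⟩
  obtain ⟨q1, q2⟩ := max_le_iff.1 hZ
  obtain ⟨x, hx1, hx2⟩ := h Z q1 M
  refine ⟨x, hx1, fun j n hn => ?_⟩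
  have h3 := hX₂ Z q2
  have h4 : V ≤ c / 2 * ff Z := by
    rw [div_le_iff₀ hc] at h3
    linarith
  have h5 : eval x (g j) = u j * eval x (g (o ⟦j⟧)) + b j := by
    have h6 := congrArg (eval x) (hub j)
    rw [map_add, map_mul, eval_C, eval_C] at h6
    exact h6
  have h7 : ((eval x (g j) : ℤ) : ℝ) = (u j : ℤ) * (eval x (g (o ⟦j⟧)) : ℤ) + b j := by
    exact_mod_cast h5
  rcases Int.units_eq_one_or (u j) with hu | hu
  · rw [hu] at h7
    push_cast at h7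
    rw [one_mul] at h7
    obtain ⟨p, hp, hp1, hp2⟩ := hx2 ⟦j⟧ n (by
      calc |(n : ℝ) - (eval x (g (o ⟦j⟧)) : ℤ)| = |((n : ℝ) - (eval x (g j) : ℤ)) + b j| := by
            rw [h7]; congr 1; ring
        _ ≤ |(n : ℝ) - (eval x (g j) : ℤ)| + |(b j : ℝ)| := abs_add_le _ _
        _ ≤ c / 2 * ff Z + V := add_le_add hn (hVb j)
        _ ≤ c * ff Z := by linarith)
    exact ⟨p, hp, hp1, hp2⟩
  · rw [hu] at h7
    push_cast at h7
    obtain ⟨p, hp, hp1, hp2⟩ := hx2 ⟦j⟧ (-n) (by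
      push_cast
      calc |-(n : ℝ) - (eval x (g (o ⟦j⟧)) : ℤ)| = |-(((n : ℝ) - (eval x (g j) : ℤ)) + b j)| := by
            rw [h7]; congr 1; ring
        _ = |((n : ℝ) - (eval x (g j) : ℤ)) + b j| := abs_neg _
        _ ≤ |(n : ℝ) - (eval x (g j) : ℤ)| + |(b j : ℝ)| := abs_add_le _ _
        _ ≤ c / 2 * ff Z + V := add_le_add hn (hVb j)
        _ ≤ c * ff Z := by linarith)
    exact ⟨p, hp, hp1, (dvd_neg).1 hp2⟩

end Pool.Agent.H260.PA
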